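import Mathlib
import Pool.Agent.W516.DRDefs
import Pool.Agent.W516.K3.Main
import Pool.Agent.W516.KU.Defs2
import Pool.Agent.W516.BQ.Defs
import Pool.Agent.W516.CMF.Final

/-!
# The derived Mumford-Tate group and the periods of the abelian varieties of ball quotients

Let `A` be an abelian variety over the field `K` of algebraic numbers whose endomorphism algebra is
a CM field `E = F(δ)`, `δ² = -d`, with `F` totally real, let `n = 2m ≥ 4` be the dimension of
`W = H_1(A)` over `E`, and suppose that the signature of the multiplication on the tangent space is
`(1, n - 1)` or `(n - 1, 1)` at one real place `σ` of `F` and `(0, n)` or `(n, 0)` at all others.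
These are the general abelian varieties of the arithmetic ball quotients of odd dimension `n - 1`,
for example the new parts of the Jacobians of the curves
`y^N = (x - a_1)^{k_1} ... (x - a_{n+2})^{k_{n+2}}` of Deligne and Mostow, whose periods are the
hypergeometric functions of Lauricella.

The derived group of the Mumford-Tate group of `A` is the special unitary group of `W` over `E`,
restricted to the ground field. The theorem of this file: the de Rham-Betti group of `A`, that is
the group of the linear automorphisms fixing all rational tensors which are polynomially expressed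
through the periods with algebraic coefficients, contains the derived group of the
Mumford-Tate group. This is a consequence of the equality `trdeg K(c_M) = dim MT(M)`; it shows that
the defect, if there is one, comes from the center, where it concerns only the periods of abelian
varieties with complex multiplication.

In the Lean statement `ω` is the polarization, `δ` and `ω` are chosen such that the symmetric form
`ω (δ u, v)` has signature `(2, *)` with a positive vector in the eigenspace of the place `σ`,
`η` is a basis of `H^1_dR(A)`, whose elements are linear maps `W → ℂ` by integration, and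
`τ = 2πi`. The hypotheses are known theorems:

* `hss`, `hend`: the theorem of Wüstholz for `A`;
* `hΛ`: the theorem of Wüstholz for the abelian variety `B` with
  `H_1(B) = Λ^m_E H_1(A) ⊗_E H_1(C)^{⊗ (1 - m)}`, where `C` is the abelian variety with complex
  multiplication by `E` whose CM type is given by the signatures. The forms in `hΛ` are the
  `E`-linear endomorphisms of `Λ^m_E H_1(A)`, which are endomorphisms of `H_1(B)`.

The proof: let `g` be the Lie algebra of the real endomorphisms of `ℝ ⊗ W` annihilating the
de Rham-Betti classes. It acts on the eigenspace of `σ`, and its image is irreducible, reductive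
and contains the real hyperbolic parts of its elements. By a Perron-Frobenius argument it contains a
nonzero hyperbolic element, which vanishes on the other eigenspaces, where the form is definite.
The grading defined by this element shows that `g` contains the special unitary Lie algebra of the
eigenspace, extended by zero, or preserves a real form of the eigenspace up to the center; the
volume form of the real form contradicts `hΛ`. Finally the rationality of `g` gives the special
unitary Lie algebras of all places.
-/

namespace Pool.Agent.Results.MP_57341d_ag.BallQuotientMotives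

open Module TensorProduct Pool.Agent.H204R3.SP Pool.Agent.H204R3.GP Pool.Agent.W516.DR
  Pool.Agent.W516.K3 Pool.Agent.W516.KU Pool.Agent.W516.BQ Pool.Agent.W516.CMF

/-- The de Rham-Betti classes on the powers of an abelian variety of a ball quotient are invariant
under the derived group of the Mumford-Tate group. -/
theorem result {k K F : Type} [Field k] [CharZero k] [Field K] [IsAlgClosed K] [CharZero K]
    [Algebra k K] [Algebra k ℂ] [Algebra K ℂ] [IsScalarTower k K ℂ] [Algebra k ℝ]
    [IsScalarTower k ℝ ℂ]
    -- the totally real field
    [Field F] [Algebra k F] [FiniteDimensional k F]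
    -- the homology of `A` with a polarization
    {W : Type} [AddCommGroup W] [Module k W] [FiniteDimensional k W] [Module F W]
    [IsScalarTower k F W] {m : ℕ} (hm : 2 ≤ m) (hn : finrank F W = 4 * m)
    (ω : W →ₗ[k] W →ₗ[k] k) (halt : ∀ v, ω v v = 0) (hnd : ∀ u, (∀ v, ω u v = 0) → u = 0)
    (hωF : ∀ (a : F) u v, ω (a • u) v = ω u (a • v))
    -- the multiplication by the CM field
    (δ : W →ₗ[F] W) (d : F) (hδδ : ∀ u, δ (δ u) = -(d • u))
    (hωδ : ∀ u v, ω (δ u) v = -ω u (δ v))
    -- the signature
    (σ : F →ₐ[k] ℝ) (hσd : 0 < σ d)
    (hsig : SignatureTwo (bx ℝ (ω ∘ₗ δ.restrictScalars k)))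
    (hpos : ∃ v, (∀ a : F, (Algebra.lsmul k k W a).baseChange ℝ v = σ a • v) ∧
      0 < bx ℝ (ω ∘ₗ δ.restrictScalars k) v v)
    -- the de Rham cohomology
    {ν : Type} [Fintype ν] [DecidableEq ν] (η : Basis ν ℂ (W →ₗ[k] ℂ)) (τ : ℂ) (hτ : τ ≠ 0)
    (hω : IsDeRhamBettiBilinear K η τ ω)
    (hF : ∀ a : F, IsDeRhamBettiEnd K η (Algebra.lsmul k k W a))
    (hδ : IsDeRhamBettiEnd K η (δ.restrictScalars k))
    -- the theorem of Wüstholz for `A`
    (hss : DeRhamBettiSemisimple K η)
    (hend : ∀ P : W →ₗ[k] W, IsDeRhamBettiEnd K η P → ∃ a c : F, ∀ u, P u = a • u + c • δ u)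
    -- the theorem of Wüstholz for `B`
    (hΛ : ∀ φ : MultilinearMap k (fun _ : Fin m × Fin 2 => W) k,
      IsDeRhamBettiForm K η τ m φ → IsSesqui (δ.restrictScalars k) φ → IsFLinear k F φ →
      ∀ x : W →ₗ[F] W, (∀ u v, ω (x u) v + ω u (x v) = 0) → x ∘ₗ δ = δ ∘ₗ x →
      Kills (x.restrictScalars k) φ)
    -- a de Rham-Betti class on a power of `A`
    (r : ℕ) (φ : MultilinearMap k (fun _ : Fin r × Fin 2 => W) k)
    (hφ : IsDeRhamBettiForm K η τ r φ)
    -- an element of the derived Lie algebra of the Mumford-Tate group
    (x : W →ₗ[F] W) (hx : ∀ u v, ω (x u) v + ω u (x v) = 0) (hxδ : x ∘ₗ δ = δ ∘ₗ x)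
    (htr : LinearMap.trace F W (x ∘ₗ δ) = 0) :
    Kills (x.restrictScalars k) φ := by
  have : Nontrivial W := by
    have h1 : FiniteDimensional F W := FiniteDimensional.right k F W
    exact Module.nontrivial_of_finrank_pos (R := F) (by omega)
  exact kills_abelian (K := K) η hτ ω halt hnd hωF δ d hδδ hωδ σ hσd hsig hpos hω hF hδ hss hend
    hm hn hΛ r φ hφ x hx hxδ htr

end Pool.Agent.Results.MP_57341d_ag.BallQuotientMotives
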