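import Pool.Agent.W537.TT.K3

/-!
# The transcendence degree of the periods of K3 surfaces and hyper-Kaehler varieties

Let `T` be a motive of K3 type and weight zero over the field of algebraic numbers, for example the
transcendental part of `H^2(X)(1)` for a K3 surface or a hyper-Kaehler variety `X` with
`b_2(X) ≠ 3`. Suppose that the algebra `E` of the endomorphisms of its Hodge structure is a totally
real field (for instance `ℚ`), and that the dimension `m` of `T` over `E` is not `5`. Let `C` be the
period matrix of `T`. We show that the conjecture of Grothendieck for `T`, that is

  the transcendence degree of the field of periods of `T` is the dimension of the Mumford-Tate group,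

holds if and only if

* the Zariski closure of the point `C` over the algebraic numbers is a torsor (more exactly: if
  `x`, `y`, `z` are invertible matrices in the closure, then `x y⁻¹ z` is in the closure),
* the de Rham-Betti classes with algebraic coefficients in the exterior powers of `T` are
  combinations of Hodge classes, and
* the de Rham-Betti realization of `T` with algebraic coefficients is semisimple.

The last two conditions are known theorems (Kuga-Satake construction of Deligne and André and the
theorem of Wüstholz). Another equivalent form: the space of the logarithmic derivatives `C⁻¹ D(C)` of
the period matrix, for all derivations `D` of the field of complex numbers, is spanned by matrices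
with algebraic entries (instead of the condition that the closure is a torsor), or is equal to the
Lie algebra of the Mumford-Tate group.

The hypotheses:

* `HodgeDeRham`: Hodge classes on the powers of `T` are de Rham classes (Deligne, André);
* `Zarhin`: the Lie algebra of the Hodge group of `T` consists of the skew `E`-linear maps;
* `SphereProperty j` for `j ≥ 3`, `j ≠ 5`: a reductive Lie algebra of skew matrices of size `j` which
  has no invariant alternating forms of degrees `0 < i < j` contains all skew matrices (Kostant).

The proof. The transcendence degree is the dimension of the space `L` of the logarithmic derivatives
(dual derivations of a transcendence basis). If the closure `Z` of `C` is a torsor, then by the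
Nullstellensatz it contains an invertible algebraic point `z`, and `L` is equal to `z⁻¹` times the
tangent space of `Z` at `z`, which is defined over the algebraic numbers. Conversely, if `L` is
spanned by algebraic matrices `x`, then the ideals of `Z` and of `w z⁻¹ Z`, for algebraic points `w`
and `z` of `Z`, are stable under the derivations `X ↦ X x` of the polynomial ring; hence so is a
minimal prime over their sum contained in the ideal of the point `w`, and its zero set has dimension
at least `dim L = dim Z`; so `Z = w z⁻¹ Z`. If `L` is defined over the algebraic numbers, it is a Lie
algebra by the formula for the derivatives, it is contained in the Lie algebra of the Hodge group, and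
it annihilates the same classes in the exterior powers; so it is the whole Lie algebra by the
argument with the Casimir element of degree four.
-/

namespace Pool.Agent.Results.MP_57341d_ag.KThreeDegree

open Pool.Agent.W537.KT Pool.Agent.W537.DB Pool.Agent.W537.TT

/-- Grothendieck's conjecture on the transcendence degree for the motive `T` of K3 type is
equivalent to the property that the closure of the period matrix is a torsor, together with two known
theorems. -/
theorem result {ι : Type} [Fintype ι] [DecidableEq ι] (T : K3Motive ι)
    (hD : T.HodgeDeRham) (hZ : T.Zarhin) (hW : ∀ j, 3 ≤ j → j ≠ 5 → SphereProperty j)
    (P : Matrix ι ι ℚ) (hP : T.RealMultiplication P) (m : ℕ)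
    (hm : Fintype.card ι = m * (minpoly ℚ P).natDegree) (h5 : m ≠ 5) :
    List.TFAE [
      periodDegree T = (Module.finrank ℂ (mumfordTate T) : Cardinal),
      IsTorsor T.C ∧ T.KugaSatake Qb ∧ T.Semisimple Qb,
      AlgSpan (logSpace T.C) ∧ T.KugaSatake Qb ∧ T.Semisimple Qb,
      logSpace T.C = mumfordTate T] := by
  have h12 := k3_iff hD hZ hW hP hm h5
  tfae_have 1 ↔ 2 := h12
  tfae_have 2 ↔ 3 := by rw [torsor_iff T.C_unit]
  tfae_have 4 → 1 := by
    intro h
    unfold periodDegree
    rw [trdeg_log T.C_unit, h]
  tfae_have 1 → 4 := by
    intro h
    unfold periodDegree at h
    rw [trdeg_log T.C_unit] at h
    have h1 : Module.finrank ℂ (logSpace T.C) = Module.finrank ℂ (mumfordTate T) := by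
      exact_mod_cast h
    refine Submodule.eq_of_le_of_finrank_eq ?_ h1
    rw [mt_eq hZ]
    exact log_le hD
  tfae_finish

end Pool.Agent.Results.MP_57341d_ag.KThreeDegree
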