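import Pool.Agent.W527.DegFinal

/-!
# The transcendence degree of the periods of motives of CM type

Let `A i = (E i, Φ i)` be finitely many CM types, with ARBITRARY CM fields `E i` and ARBITRARY
types. As in earlier work in this repository the periods of the corresponding abelian varieties enter
as a `PeriodSystem` (helper537): a nonzero number `θ A φ` for every CM type `A = (E, Φ)` and every
embedding `φ` of `E`, such that the theorem of Bost (de Rham-Betti classes of degree two on abelian
varieties of CM type are Hodge classes; a consequence of the theorem of Wüstholz) and the theorem of
Deligne (Hodge classes on abelian varieties are de Rham-Betti classes) hold. Both are theorems for
the true periods.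

Let `M` be a motive over the field of algebraic numbers in the tensor category generated by the
`h^1 (A i)` and `ℚ(1)`, for instance the cohomology of a product of powers of the `A i`, or a
direct summand of a tensor construction. The homology and the de Rham cohomology of `M` are the
sums of lines, and the period matrix of `M` is, up to matrices with algebraic entries, the diagonal
matrix of the periods of these lines. A line is given by its weight `(m, k)`: the exponents `m z` of
the eigenforms `z = (i, φ)`, `φ` an embedding of `E i`, and a Tate twist; its period is the product
of the `θ (A i) φ ^ m z` and of `(2 π i) ^ k`. The set of the weights is finite and stable under the
automorphisms of `ℂ` (`Motive`). The function `hodgeIndex w` gives for an automorphism `σ` of `ℂ` the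
Hodge number `p` of the line `σ w`; it is the pairing of `w` with the conjugates of the Hodge
cocharacter, so that the dimension of the Mumford-Tate group of `M` is the number of linearly
independent functions `hodgeIndex w` (`mumfordTateDim`), and its complex points are given by the
equations `∏ h w ^ c w = 1` for all relations `∑ c w • hodgeIndex w = 0` (`mumfordTate`).

Let `Z` be the closure of the point of the periods of `M` for the Zariski topology over the field of
algebraic numbers (`closure`). The theorem says that for CM types in the class of
`MP_f11a48_ag.MildCMMotives` and for every motive `M` in this category the following are equivalent:

* the transcendence degree of the field of periods of `M` is the dimension of the Mumford-Tate group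
  (the conjecture of Grothendieck, Q1);
* `Z` is a torsor under a group defined over `ℚ` (`IsTorsor`);
* `Z` is the torsor of the Mumford-Tate group (`IsOmega`).

The class (`AbelianOrMild` and `SimpleSubfields`) contains all families of CM types with CM fields
abelian over `ℚ`, the single CM fields in which every CM subfield is small in the following sense,
and their products if the separated families of CM subfields are abelian or mild: some prime number
divides the discriminant of one member of the family but its third power does not divide the product
of the discriminants, or some automorphism of `ℂ` moves one to four of the embeddings, or acts on
the pairs of conjugate embeddings as one cycle of odd prime length. There is no condition on the CM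
types besides the separatedness, and no condition on the multiplicities in `M`.
-/

namespace Pool.Agent.Results.MP_57341d_ag.MildCMDegree

open Pool.Agent.W547.KB Pool.Agent.W537.PC Pool.Agent.W527.Per Pool.Agent.W527.Degree

/-- The transcendence degree of the periods of motives of CM type. -/
theorem result (P : PeriodSystem) (hBost : P.Bost) (hDeligne : P.Deligne) {ι : Type} [Fintype ι]
    (A : ι → CMPair) (hA : AbelianOrMild A) (hS : SimpleSubfields A) (M : Motive A) :
    (periodDegree P M = mumfordTateDim M ↔ IsTorsor P M) ∧
      (periodDegree P M = mumfordTateDim M ↔ IsOmega P M) :=
  degree_iff hDeligne
    ((allHodge_iff A hBost hDeligne hA).2 (twoTerm_of_simpleSubfields A hBost hDeligne hS)) M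

end Pool.Agent.Results.MP_57341d_ag.MildCMDegree
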