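import Pool.Agent.W519.E.Fin

/-!
# The transcendence degree of the periods of abelian varieties with multiplication by an abelian CM
# field `L` whose homology has rank two over `L`

Let `L` be a CM field which is abelian over the rational numbers, for example a cyclotomic field. We
consider finite products `X` of abelian varieties `A` over the field of algebraic numbers with
multiplication by `L` such that `H_1(A, ℚ) = L ^ 2`. An example is the new part of the Jacobian of
the curve `y ^ n = x ^ a * (x - 1) ^ b * (x - t) ^ c` for an algebraic number `t`; its periods are
the values at `t` of hypergeometric functions. We assume that `L` is the ring of all `L`-linear
endomorphisms of `A`, or that `A` is isogenous to the square of an abelian variety with complex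
multiplication by `L`. There is no restriction on the signature of the action of `L` on the tangent
space of `A`, and the factors of `X` can be isogenous or related in other ways.

We show that the conjecture of Grothendieck for `X`, that is

  the transcendence degree of the field of periods of `X` is the dimension of the Mumford-Tate group,

holds if and only if the closure of the period matrix over the field of algebraic numbers is a
torsor under a group defined over `ℚ`. More exactly the condition is: if `x`, `y`, `z` are
invertible elements of the closure and `σ` is an automorphism of `ℂ`, then `x σ(y⁻¹ z)` belongs to
the closure, where `σ` acts on the endomorphisms of the homology `H_1(X, ℚ) ⊗ ℂ`. It is enough that
the space of the logarithmic derivatives `c⁻¹ D(c)` of the period matrix `c`, for all derivations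
`D` of the field of complex numbers, is defined over `ℚ`; then this space is the Lie algebra of the
Mumford-Tate group.

We use the theorem of Deligne (in the form that the logarithmic derivatives of the periods belong to
the Lie algebra of the Mumford-Tate group), and the theorem of Wüstholz for the first homology groups
(homomorphisms of de Rham-Betti objects are homomorphisms of abelian varieties, and subobjects have
complements).

The proof. If the closure is a torsor, the space `W` of the logarithmic derivatives is the Lie
algebra of the group, and it is defined over `ℚ`. By the theorem of Wüstholz it has no invariant
line in the two-dimensional space which belongs to a simple `A` and an embedding of `L`. So the
traceless part of `W` is a subdirect product of Lie algebras `sl_2`, and by Goursat's lemma it is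
determined by isomorphisms between pairs of these spaces. Such an isomorphism gives a relation
between the period matrices of `A` and of `A'` up to a scalar factor. Its square is related to
determinants, and these belong to the periods of abelian varieties with complex multiplication. The
positivity of the polarizations gives a congruence modulo two between the Hodge types, so that the
factor is a quotient of the periods of two CM types of `L`, up to an algebraic number, and after a
twist by this quotient the isomorphism is a homomorphism of de Rham-Betti objects between first
homology groups, and so a homomorphism of abelian varieties. So the traceless part of the derivative
of the Hodge cocharacter belongs to `W`. For the traces, consider a linear equation with algebraic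
coefficients which is satisfied by `D(u)/u`, for `u = 2 π i` and the determinants of the period
matrices and all derivations `D`. It follows that it is a combination of equations with integral
coefficients, and these are multiplicative relations between the numbers `u` up to algebraic
numbers. Since `W` is defined over `ℚ`, the conjugate relations hold too. By the theorem on the
monomials in the periods of abelian varieties with complex multiplication by abelian fields (which
follows from the theorem of Wüstholz), the types satisfy the same relations, and the derivative of
the Hodge cocharacter belongs to `W`.
-/

namespace Pool.Agent.Results.MP_57341d_ag.RankTwoDegree

open NumberField Pool.Agent.W537.PC Pool.Agent.W519.Q Pool.Agent.W519.E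

/-- The transcendence degree of the field of the periods of the product of the abelian varieties
`A i`: the field generated by the number `2 π i` and the entries of the period matrices. -/
noncomputable def periodDegree {L : Type} [Field L] [NumberField L] (P : PerSys L) {I : Type}
    (A : I → HS L) : Cardinal :=
  Algebra.trdeg ℚ (IntermediateField.adjoin ℚ (Set.range (crd (period P.per A))))

/-- Let `L` be a CM field, abelian over the rational numbers, and let `X` be the product of a finite
family of abelian varieties `A i` over the field of algebraic numbers with multiplication by `L`,
such that `H_1(A i, ℚ) = L ^ 2`, and such that `A i` is simple over `L` or isogenous to a square of
an abelian variety with complex multiplication by `L`. Grothendieck's conjecture on the transcendence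
degree for `X` is equivalent to the property that the closure of the periods is a torsor under a
group defined over `ℚ`. -/
theorem result (L : Type) [Field L] [NumberField L] [IsCMField L] (hL : IsAbelian L)
    (P : PerSys L) (hP : Wuestholz P) (I : Type) [Fintype I] (A : I → HS L)
    (hA : ∀ i, P.IsAV (A i)) (hs : ∀ i, (A i).IsSimple ∨ (A i).IsSquare) :
    List.TFAE [
      periodDegree P A = (Module.finrank ℂ (mt A) : Cardinal),
      IsTorsor (gS L I) (period P.per A),
      IsRational (gS L I) (logSpace (period P.per A)),
      logSpace (period P.per A) = mt A] := by
  have : IsGalois ℚ L := hL.1
  exact main hL P hP A hA hs

end Pool.Agent.Results.MP_57341d_ag.RankTwoDegree
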